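import Pool.Agent.Helper52.NSE.Public

/-!
# Where the energy equality of a Leray-Hopf weak solution can fail first

Let `u` be a Leray-Hopf weak solution in a smooth bounded domain whose energy-irregular times (the
times without a neighbourhood on which the defect of the energy inequality is constant) form a
countable set. If the energy inequality is strict at some time, then at some energy-irregular time
`t₀ > 0` the dissipation rate satisfies `ε(s) ≥ c (t₀ - s)^(-4/5)` for `s < t₀` close to `t₀`, and
`limsup_{s → t₀-} (t₀ - s)^((1 - 3/p)/2) ‖u(s)‖_p = ∞` for every `p`.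

Proof idea. For `w ∈ H¹_{0,σ}(Ω)` push `w` into the domain and mollify at scale `δ`: the resulting
divergence-free test field `ψ` satisfies `‖w - ψ‖ ≤ C δ ‖w‖_{H¹}`, `‖∇ψ‖ ≤ C δ⁻¹ ‖w‖` and
`‖∇ψ‖_∞ ≤ C δ^(-1-3/p) ‖w‖_p`. Testing the equations between `s` and `t` with the field `ψ` obtained
from `u(s)` bounds the growth of the energy defect `D`, that is `D(t) - D(s)`, by
`C (δ² ‖u(s)‖²_{H¹} + δ⁻¹ (t-s)^{1/2} + (t-s) δ^(-1-3/p) ‖u(s)‖_p + ∫ ‖f‖)`, and one optimises in
`δ`. The defect is upper semicontinuous, so that it cannot jump upwards to the right, and a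
countable set of times at which there is no upward jump from the left cannot produce a positive
defect.
-/

open Set

namespace Pool.Agent.Results.MP_a38b17_an.EnergyDropRate

open Pool.Agent.Helper52.NSE

/-- Suppose that the energy-irregular times of a weak solution form a countable set and that the
energy inequality is strict at some time. Then there is an energy-irregular time `t₀ > 0` at which
the energy defect jumps upwards from the left, such that `ε(s) ≥ c (t₀ - s)^(-4/5)` for almost
every `s ∈ (t₀ - c, t₀)` (all `s` at which `G(s)` is the gradient of `u(s)`), and such that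
`(t₀ - s)^((1 - 3/p)/2) ‖u(s)‖_p` is unbounded as `s → t₀-` for every `1 ≤ p ≤ ∞`. -/
theorem result (Ω : Set E3) (hΩ : IsSmoothBoundedDomain Ω) (ν T : ℝ) (hν : 0 < ν)
    (u₀ : E3 → E3) (f u : ℝ → E3 → E3) (G : ℝ → Fin 3 → E3 → E3)
    (h : WeakSolution Ω ν T u₀ f u G) (hS : (irregular Ω ν T f u G).Countable)
    (hstrict : ∃ t ∈ Icc 0 T, energyLeft Ω ν u G t < energyRight Ω f u t) :
    ∃ t₀ ∈ irregular Ω ν T f u G, 0 < t₀ ∧ JumpsFromLeft (defect Ω ν f u G) t₀ ∧
      DissipationRate Ω ν u G t₀ ∧ NotTypeI Ω u t₀ := by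
  obtain ⟨t₀, ht, h0, hj, hp⟩ := h.internal.exists_drop hΩ hν hS (by
    obtain ⟨t, ht, hlt⟩ := hstrict
    refine ⟨t, ht, ?_⟩
    unfold energyLeft energyRight at hlt
    unfold defect
    linarith)
  exact ⟨t₀, ht, h0, hj, rate_two hΩ hν h.internal h0 ht.1.2 hp,
    rate_p h.internal h0 ht.1.2 hp⟩

end Pool.Agent.Results.MP_a38b17_an.EnergyDropRate
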